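import Mathlib

namespace Pool.Agent.Results.MP_154e02_al.NoRoot

open Matrix

/-- The `H`-adjoint `H⁻¹ X^* H`. -/
noncomputable def hAdj {F : Type} [RCLike F] {n : ℕ} (H X : Matrix (Fin n) (Fin n) F) :
    Matrix (Fin n) (Fin n) F := H⁻¹ * Xᴴ * H

/-- The kernel of a square matrix. -/
def kerM {F : Type} [RCLike F] {n : ℕ} (X : Matrix (Fin n) (Fin n) F) : Set (Fin n → F) :=
  {v | X *ᵥ v = 0}

theorem result (F : Type) [RCLike F] :
    ∃ (n : ℕ) (H X Y : Matrix (Fin n) (Fin n) F), 1 ≤ n ∧ IsUnit H ∧ Hᴴ = H ∧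
      Y * Y = hAdj H X * X ∧ kerM Y = kerM X ∧
      ¬ ∃ A : Matrix (Fin n) (Fin n) F, hAdj H A = A ∧ A * A = hAdj H X * X ∧
        kerM A = kerM X := by
  set H : Matrix (Fin 4) (Fin 4) F := !![1,0,0,0; 0,1,0,0; 0,0,-1,0; 0,0,0,-1] with hH
  set X : Matrix (Fin 4) (Fin 4) F := !![0,0,0,0; 0,0,0,0; 1,0,0,0; 0,1,0,0] with hX
  have hHH : H * H = 1 := by
    ext i j; fin_cases i <;> fin_cases j <;> simp [hH, Matrix.mul_apply, Fin.sum_univ_four]
  have hinv : H⁻¹ = H := Matrix.inv_eq_left_inv hHH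
  have hXX : hAdj H X * X = !![-1,0,0,0; 0,-1,0,0; 0,0,0,0; 0,0,0,0] := by
    unfold hAdj; rw [hinv]
    have hXc : Xᴴ = !![0,0,1,0; 0,0,0,1; 0,0,0,0; 0,0,0,0] := by
      ext i j; fin_cases i <;> fin_cases j <;> simp [hX, Matrix.conjTranspose_apply]
    rw [hXc]
    ext i j; fin_cases i <;> fin_cases j <;>
      simp [hH, hX, Matrix.mul_apply, Fin.sum_univ_four]
  have hk : ∀ v : Fin 4 → F, v ∈ kerM X ↔ v 0 = 0 ∧ v 1 = 0 := by
    intro v
    simp only [kerM, Set.mem_ofPred_eq, funext_iff, Fin.forall_fin_succ]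
    simp [hX, Matrix.mulVec, dotProduct, Fin.sum_univ_four]
  refine ⟨4, H, X, !![0,-1,0,0; 1,0,0,0; 0,0,0,0; 0,0,0,0], by norm_num,
    (Matrix.isUnit_iff_isUnit_det _).2 (Matrix.isUnit_det_of_left_inverse hHH), ?_, ?_, ?_, ?_⟩
  · ext i j; fin_cases i <;> fin_cases j <;> simp [hH, Matrix.conjTranspose_apply]
  · rw [hXX]
    ext i j; fin_cases i <;> fin_cases j <;> simp [Matrix.mul_apply, Fin.sum_univ_four]
  · ext v
    rw [hk]
    simp only [kerM, Set.mem_ofPred_eq, funext_iff, Fin.forall_fin_succ]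
    simp [Matrix.mulVec, dotProduct, Fin.sum_univ_four, and_comm]
  · rintro ⟨A, h1, h2, h3⟩
    have e2 : (Pi.single 2 1 : Fin 4 → F) ∈ kerM A := by rw [h3, hk]; simp
    have e3 : (Pi.single 3 1 : Fin 4 → F) ∈ kerM A := by rw [h3, hk]; simp
    have a02 : A 0 2 = 0 := by simpa using congrFun e2 0
    have a03 : A 0 3 = 0 := by simpa using congrFun e3 0
    unfold hAdj at h1; rw [hinv] at h1
    have b00 : star (A 0 0) = A 0 0 := by
      have := congrFun (congrFun h1 0) 0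
      simpa [hH, Matrix.mul_apply, Fin.sum_univ_four, Matrix.conjTranspose_apply, Matrix.vecMul,
        dotProduct] using this
    have b10 : star (A 0 1) = A 1 0 := by
      have := congrFun (congrFun h1 1) 0
      simpa [hH, Matrix.mul_apply, Fin.sum_univ_four, Matrix.conjTranspose_apply, Matrix.vecMul,
        dotProduct] using this
    rw [hXX] at h2
    have c := congrFun (congrFun h2 0) 0
    simp only [Matrix.mul_apply, Fin.sum_univ_four, a02, a03, zero_mul, add_zero] at c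
    rw [← b10] at c
    nth_rewrite 2 [← b00] at c
    have c2 : ((‖A 0 0‖ ^ 2 + ‖A 0 1‖ ^ 2 : ℝ) : F) = ((-1 : ℝ) : F) := by
      have u := RCLike.mul_conj (A 0 0)
      have w := RCLike.mul_conj (A 0 1)
      simp only [RCLike.star_def] at c
      rw [u, w] at c
      push_cast
      simpa using c
    have c3 := RCLike.ofReal_injective c2
    nlinarith [sq_nonneg ‖A 0 0‖, sq_nonneg ‖A 0 1‖]

end Pool.Agent.Results.MP_154e02_al.NoRoot
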